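import Pool.Agent.Q196.SR.Close3
import Pool.Agent.Q196.SR.Gfun
import Pool.Agent.Y503.RB.ConvSurf

/-!
Surfaces: for large `t` there are at most as many local minima of `(1 - |x|²) exp (- t h)` as `h`
has local maxima.
-/

set_option autoImplicit false

namespace Pool.Agent.Q196.RG

open scoped ContDiff RealInnerProductSpace ENNReal Topology
open MeasureTheory Set Metric Filter Pool.Agent.Y503.RB Pool.Agent.Q196.SR

/-- No limits on the boundary. -/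
theorem no_bdry' {φ : ℂ → E4} {f : ℂ → ℝ} {w : ℂ} (hφ : ContDiffAt ℝ ∞ φ w)
    (hf : ContDiffAt ℝ ∞ f w) (hr : rh φ w = 0) {w' : ℂ} (htr : fderiv ℝ (rh φ) w w' ≠ 0)
    (hd : fderiv ℝ f w ≠ 0) {z : ℕ → ℂ} {t : ℕ → ℝ} {a : ℕ → E4}
    (hz : Tendsto z atTop (𝓝 w)) (ha : Tendsto a atTop (𝓝 0))
    (h1 : ∀ n, E1 φ f (t n) (a n) (z n)) (h2 : ∀ n, E2 φ f (t n) (a n) (z n)) : False := by
  obtain ⟨u, hu⟩ : ∃ u : ℂ, fderiv ℝ f w u ≠ 0 := by
    by_contra hc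
    push Not at hc
    exact hd (ContinuousLinearMap.ext hc)
  have hrs := rh_smooth hφ
  have hR : Tendsto (fun n => rh φ (z n)) atTop (𝓝 0) := by
    rw [← hr]
    exact hrs.continuousAt.tendsto.comp hz
  have hRu : ∀ v : ℂ, Tendsto (fun n => fderiv ℝ (rh φ) (z n) v) atTop
      (𝓝 (fderiv ℝ (rh φ) w v)) := fun v => (d1_cont hrs v).tendsto.comp hz
  have hRuu : ∀ v : ℂ, Tendsto (fun n => fderiv ℝ (fderiv ℝ (rh φ)) (z n) v v) atTop
      (𝓝 (fderiv ℝ (fderiv ℝ (rh φ)) w v v)) := fun v => (d2_cont hrs v v).tendsto.comp hz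
  have hFu : ∀ v : ℂ, Tendsto (fun n => fderiv ℝ f (z n) v + ⟪a n, fderiv ℝ φ (z n) v⟫) atTop
      (𝓝 (fderiv ℝ f w v)) := by
    intro v
    have h3 : Tendsto (fun n => fderiv ℝ f (z n) v) atTop (𝓝 (fderiv ℝ f w v)) :=
      (d1_cont hf v).tendsto.comp hz
    have h4 : Tendsto (fun n => fderiv ℝ φ (z n) v) atTop (𝓝 (fderiv ℝ φ w v)) :=
      (d1_cont hφ v).tendsto.comp hz
    simpa using h3.add (ha.inner h4)
  have hFuu : ∀ v : ℂ, Tendsto (fun n => fderiv ℝ (fderiv ℝ f) (z n) v v +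
      ⟪a n, d2 φ v v (z n)⟫) atTop (𝓝 (fderiv ℝ (fderiv ℝ f) w v v)) := by
    intro v
    have h3 : Tendsto (fun n => fderiv ℝ (fderiv ℝ f) (z n) v v) atTop
      (𝓝 (fderiv ℝ (fderiv ℝ f) w v v)) := (d2_cont hf v v).tendsto.comp hz
    have h4 : Tendsto (fun n => d2 φ v v (z n)) atTop (𝓝 (d2 φ v v w)) :=
      (d2_contE hφ v v).tendsto.comp hz
    simpa using h3.add (ha.inner h4)
  have hk : Tendsto (fun n => t n * rh φ (z n)) atTop
      (𝓝 (fderiv ℝ (rh φ) w u / fderiv ℝ f w u)) := by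
    refine ((hRu u).div (hFu u) hu).congr' ?_
    filter_upwards [(hFu u).eventually_ne hu] with n hn
    show fderiv ℝ (rh φ) (z n) u / _ = _
    rw [h1 n u]
    field_simp
  have hk2 : Tendsto (fun n => t n * rh φ (z n) ^ 2) atTop (𝓝 0) := by
    have := hk.mul hR
    rw [mul_zero] at this
    refine this.congr fun n => ?_
    ring
  have h3 := (((hR.mul (hRuu w')).sub ((hRu w').pow 2)).sub (hk2.mul (hFuu w')))
  have h4 := ge_of_tendsto' h3 (fun n => h2 n w')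
  have h5 : 0 < (fderiv ℝ (rh φ) w w') ^ 2 := by positivity
  simp only [zero_mul, zero_sub, sub_zero] at h4
  linarith

/-- `h` restricted to the surface `F` is a Morse function in the open ball and it has no critical
points on the boundary of `F`. -/
def MorseOn (h : E4 → ℝ) (F : Set E4) : Prop :=
  ∀ p ∈ F, ∃ (φ : ℂ → E4) (U : Set ℂ) (V : Set E4) (z : ℂ), BPatch φ U ∧ IsOpen V ∧ p ∈ V ∧
    F ∩ V = φ '' U ∩ closedBall 0 1 ∧ z ∈ U ∧ φ z = p ∧
    (‖p‖ = 1 → fderiv ℝ (fun w => h (φ w)) z ≠ 0) ∧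
    (‖p‖ < 1 → fderiv ℝ (fun w => h (φ w)) z = 0 → ∀ u : ℂ,
      (∀ v : ℂ, fderiv ℝ (fderiv ℝ (fun w => h (φ w))) z u v = 0) → u = 0)

theorem exists_injS {α : Type*} {S : Set α} {m : ℕ} (h : (m : ℕ∞) < S.encard) :
    ∃ x : Fin (m + 1) → α, Function.Injective x ∧ ∀ i, x i ∈ S := by
  have h1 : ((m + 1 : ℕ) : ℕ∞) ≤ S.encard := by
    have := Order.add_one_le_of_lt h
    exact_mod_cast this
  obtain ⟨t, ht, hcard⟩ := Set.exists_subset_encard_eq h1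
  have hfin : t.Finite := Set.finite_of_encard_eq_coe hcard
  have h2 : hfin.toFinset.card = m + 1 := by
    have := hfin.encard_eq_coe_toFinset_card
    rw [hcard] at this
    exact_mod_cast this.symm
  let e := (hfin.toFinset.equivFinOfCardEq h2).symm
  refine ⟨fun i => (e i : α), fun i j hij => e.injective (Subtype.ext hij), fun i => ht ?_⟩
  exact hfin.mem_toFinset.mp (e i).2

/-- Coordinates of a convergent sequence on the surface. -/
theorem chart_lim {F V : Set E4} {φ : ℂ → E4} {U : Set ℂ} (hB : BPatch φ U) (hV : IsOpen V)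
    (hF : F ∩ V = φ '' U ∩ closedBall 0 1) {z : ℂ} (hz : z ∈ U) (hzV : φ z ∈ V)
    {x : ℕ → E4} (hxF : ∀ n, x n ∈ F) (hx : Tendsto x atTop (𝓝 (φ z))) :
    ∃ zz : ℕ → ℂ, (∀ᶠ n in atTop, zz n ∈ U ∧ φ (zz n) = x n) ∧ Tendsto zz atTop (𝓝 z) := by
  classical
  have hex : ∀ n, ∃ w : ℂ, x n ∈ V → w ∈ U ∧ φ w = x n := by
    intro n
    by_cases h : x n ∈ V
    · have h1 : x n ∈ φ '' U ∩ closedBall 0 1 := hF ▸ ⟨hxF n, h⟩
      obtain ⟨⟨w, hw, hwx⟩, -⟩ := h1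
      exact ⟨w, fun _ => ⟨hw, hwx⟩⟩
    · exact ⟨0, fun h' => absurd h' h⟩
  choose zz hzz using hex
  have hVn : ∀ᶠ n in atTop, x n ∈ V := hx.eventually (hV.mem_nhds hzV)
  refine ⟨zz, hVn.mono fun n hn => hzz n hn, ?_⟩
  rw [tendsto_def]
  intro O hO
  obtain ⟨O', hO', hO'o, hzO'⟩ := _root_.mem_nhds_iff.1 hO
  obtain ⟨N, hN, hzN, hNV, hNx⟩ := nbhd hB hV hF hz hzV hO'o hzO'
  have hNn : ∀ᶠ n in atTop, x n ∈ N := hx.eventually (hN.mem_nhds hzN)
  filter_upwards [hNn, hVn] with n h1 h2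
  obtain ⟨w, ⟨hwU, hwO⟩, hwx⟩ := hNx (x n) ⟨hxF n, h1⟩
  obtain ⟨h3, h4⟩ := hzz n h2
  have h5 : (⟨zz n, h3⟩ : U) = ⟨w, hwU⟩ := hB.emb.injective (by
    show φ (zz n) = φ w
    rw [h4, hwx])
  have h6 : zz n = w := congrArg Subtype.val h5
  show zz n ∈ O
  rw [h6]
  exact hO' hwO

theorem ev_mem {F V : Set E4} {φ : ℂ → E4} {U : Set ℂ} (hB : BPatch φ U) (hV : IsOpen V)
    (hF : F ∩ V = φ '' U ∩ closedBall 0 1) {z : ℂ} (hz : z ∈ U) (hzV : φ z ∈ V)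
    (hz1 : ‖φ z‖ < 1) : ∀ᶠ w in 𝓝 z, φ w ∈ F := by
  have hc : ContinuousAt φ z := hB.smooth.continuousOn.continuousAt (hB.isOpen.mem_nhds hz)
  filter_upwards [hB.isOpen.mem_nhds hz, hc.eventually (hV.mem_nhds hzV),
    hc.norm.eventually (gt_mem_nhds hz1)] with w h1 h2 h3
  have h4 : φ w ∈ φ '' U ∩ closedBall 0 1 := ⟨⟨w, h1, rfl⟩, by simpa using h3.le⟩
  rw [← hF] at h4
  exact h4.1

theorem min_compS {φ : ℂ → E4} {F : Set E4} {f : E4 → ℝ} {z : ℂ} (hc : ContinuousAt φ z)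
    (hs : ∀ᶠ w in 𝓝 z, φ w ∈ F) (h : IsLocalMinOn f F (φ z)) : IsLocalMin (fun w => f (φ w)) z := by
  have h1 : Tendsto φ (𝓝 z) (𝓝[F] (φ z)) := tendsto_nhdsWithin_iff.mpr ⟨hc, hs⟩
  exact h1.eventually h

theorem max_compS {φ : ℂ → E4} {F : Set E4} {f : E4 → ℝ} {z : ℂ} (hc : ContinuousAt φ z)
    (hs : ∀ᶠ w in 𝓝 z, φ w ∈ F) (h : IsLocalMaxOn f F (φ z)) : IsLocalMax (fun w => f (φ w)) z := by
  have h1 : Tendsto φ (𝓝 z) (𝓝[F] (φ z)) := tendsto_nhdsWithin_iff.mpr ⟨hc, hs⟩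
  exact h1.eventually h

theorem maxOn_of {F V : Set E4} {φ : ℂ → E4} {U : Set ℂ} (hB : BPatch φ U) (hV : IsOpen V)
    (hF : F ∩ V = φ '' U ∩ closedBall 0 1) {z : ℂ} (hz : z ∈ U) (hzV : φ z ∈ V) {f : E4 → ℝ}
    (h : IsLocalMax (fun w => f (φ w)) z) : IsLocalMaxOn f F (φ z) := by
  obtain ⟨O, hO, hOo, hzO⟩ := _root_.mem_nhds_iff.1 h
  obtain ⟨N, hN, hzN, hNV, hNx⟩ := nbhd hB hV hF hz hzV hOo hzO
  have : N ∈ 𝓝[F] (φ z) := mem_nhdsWithin_of_mem_nhds (hN.mem_nhds hzN)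
  filter_upwards [this, self_mem_nhdsWithin] with x hx hxF
  obtain ⟨w, ⟨-, hwO⟩, rfl⟩ := hNx x ⟨hxF, hx⟩
  exact hO hwO

theorem closeS {F : Set E4} (hF : PSurf F) {h : E4 → ℝ} {W : Set E4} (hW : IsOpen W)
    (hWs : closedBall (0 : E4) 1 ⊆ W) (hs : ContDiffOn ℝ ∞ h W) (hm : MorseOn h F) {m : ℕ}
    (hmax : {p : E4 | p ∈ F ∧ ‖p‖ < 1 ∧ IsLocalMaxOn h F p}.encard ≤ m) :
    ∃ N : ℕ, ∀ (t : ℝ) (a : E4), (N : ℝ) + 1 ≤ t → ‖a‖ ≤ 1 / ((N : ℝ) + 1) →
      {p : E4 | p ∈ F ∧ ‖p‖ < 1 ∧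
        IsLocalMinOn (gfun (fun x => h x + ⟪a, x⟫) t) F p}.encard ≤ m := by
  classical
  by_contra hcon
  push Not at hcon
  choose t a ht ha hc using hcon
  choose x hxi hx using fun n => exists_injS (hc n)
  have hK : IsCompact (Set.pi univ (fun _ : Fin (m + 1) => F)) :=
    isCompact_univ_pi fun _ => hF.compact
  obtain ⟨y, hy, θ, hθ, hlim⟩ := hK.tendsto_subseq (x := x) (fun n i _ => (hx n i).1)
  have hlim' : ∀ i, Tendsto (fun n => x (θ n) i) atTop (𝓝 (y i)) := fun i =>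
    (tendsto_pi_nhds.mp hlim) i
  have hyF : ∀ i, y i ∈ F := fun i => hy i (mem_univ i)
  choose! φ U V z hB hVo hpV hFV hzU hzp hbd hnd using hm
  have hcoord : ∀ i, ∃ zz : ℕ → ℂ, (∀ᶠ n in atTop, zz n ∈ U (y i) ∧ φ (y i) (zz n) = x (θ n) i) ∧
      Tendsto zz atTop (𝓝 (z (y i))) := by
    intro i
    refine chart_lim (hB _ (hyF i)) (hVo _ (hyF i)) (hFV _ (hyF i)) (hzU _ (hyF i))
      (by rw [hzp _ (hyF i)]; exact hpV _ (hyF i)) (fun n => (hx (θ n) i).1)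
      (by rw [hzp _ (hyF i)]; exact hlim' i)
  choose zz hzz hzlim using hcoord
  have hVev : ∀ i, ∀ᶠ n in atTop, x (θ n) i ∈ V (y i) := fun i =>
    (hlim' i).eventually ((hVo _ (hyF i)).mem_nhds (hpV _ (hyF i)))
  obtain ⟨n₀, hn₀⟩ := eventually_atTop.1 (eventually_all.2 fun i => (hzz i).and (hVev i))
  have hgood : ∀ i n, zz i (n + n₀) ∈ U (y i) ∧ φ (y i) (zz i (n + n₀)) = x (θ (n + n₀)) i ∧
      x (θ (n + n₀)) i ∈ V (y i) := fun i n =>
    ⟨(hn₀ (n + n₀) (Nat.le_add_left _ _) i).1.1, (hn₀ (n + n₀) (Nat.le_add_left _ _) i).1.2,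
      (hn₀ (n + n₀) (Nat.le_add_left _ _) i).2⟩
  have hshift : Tendsto (fun n : ℕ => n + n₀) atTop atTop := tendsto_add_atTop_nat n₀
  have htt : Tendsto (fun n => t (θ (n + n₀))) atTop atTop := by
    have h1 : Tendsto t atTop atTop := by
      refine tendsto_atTop_mono (f := fun n : ℕ => (n : ℝ)) (fun n => ?_)
        tendsto_natCast_atTop_atTop
      linarith [ht n]
    exact (h1.comp hθ.tendsto_atTop).comp hshift
  have haa : Tendsto (fun n => a (θ (n + n₀))) atTop (𝓝 0) := by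
    have h1 : Tendsto a atTop (𝓝 0) := by
      rw [tendsto_zero_iff_norm_tendsto_zero]
      exact squeeze_zero (fun n => norm_nonneg _) ha tendsto_one_div_add_atTop_nhds_zero_nat
    exact (h1.comp hθ.tendsto_atTop).comp hshift
  have hzl : ∀ i, Tendsto (fun n => zz i (n + n₀)) atTop (𝓝 (z (y i))) := fun i =>
    (hzlim i).comp hshift
  have hat : ∀ p ∈ F, ∀ w ∈ U p, ContDiffAt ℝ ∞ (φ p) w := fun p hp w hw =>
    (hB p hp).smooth.contDiffAt ((hB p hp).isOpen.mem_nhds hw)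
  have hh : ∀ q : E4, ‖q‖ ≤ 1 → ContDiffAt ℝ ∞ h q := fun q hq =>
    hs.contDiffAt (hW.mem_nhds (hWs (by simpa using hq)))
  have hy1 : ∀ i, ‖y i‖ ≤ 1 := fun i => by simpa using hF.sub (hyF i)
  have hfy : ∀ i, ContDiffAt ℝ ∞ (fun w => h (φ (y i) w)) (z (y i)) := fun i =>
    ContDiffAt.comp (g := h) (f := φ (y i)) (z (y i))
      (by rw [hzp _ (hyF i)]; exact hh _ (hy1 i)) (hat _ (hyF i) _ (hzU _ (hyF i)))
  have hE : ∀ i n, E1 (φ (y i)) (fun w => h (φ (y i) w)) (t (θ (n + n₀))) (a (θ (n + n₀)))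
      (zz i (n + n₀)) ∧ E2 (φ (y i)) (fun w => h (φ (y i) w)) (t (θ (n + n₀)))
        (a (θ (n + n₀))) (zz i (n + n₀)) := by
    intro i n
    obtain ⟨h1, h2, h3⟩ := hx (θ (n + n₀)) i
    obtain ⟨g1, g2, g3⟩ := hgood i n
    have hφz := hat _ (hyF i) _ g1
    refine PP_min hφz ?_ ?_ ?_
    · refine ContDiffAt.comp (g := h) (f := φ (y i)) _ ?_ hφz
      rw [g2]
      exact hh _ h2.le
    · unfold rh
      rw [g2]
      nlinarith [norm_nonneg (x (θ (n + n₀)) i)]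
    · have hmem := ev_mem (hB _ (hyF i)) (hVo _ (hyF i)) (hFV _ (hyF i)) g1
        (by rw [g2]; exact g3) (by rw [g2]; exact h2)
      rw [← g2] at h3
      exact min_compS hφz.continuousAt hmem h3
  have hyb : ∀ i, ‖y i‖ < 1 := by
    intro i
    rcases (hy1 i).lt_or_eq with h1 | h1
    · exact h1
    · exfalso
      have h2 := (hB _ (hyF i)).trans _ (hzU _ (hyF i)) (by rw [hzp _ (hyF i)]; exact h1)
      obtain ⟨w', hw'⟩ : ∃ w', fderiv ℝ (rh (φ (y i))) (z (y i)) w' ≠ 0 := by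
        by_contra hc
        push Not at hc
        apply h2
        have h3 : fderiv ℝ (rh (φ (y i))) (z (y i)) = 0 := ContinuousLinearMap.ext hc
        have h4 : fderiv ℝ (rh (φ (y i))) (z (y i)) =
            -fderiv ℝ (fun w => ‖φ (y i) w‖ ^ 2) (z (y i)) := by
          have : rh (φ (y i)) = fun w => 1 - ‖φ (y i) w‖ ^ 2 := rfl
          rw [this, fderiv_const_sub]
        rw [h3] at h4
        exact neg_eq_zero.mp h4.symm
      refine no_bdry' (hat _ (hyF i) _ (hzU _ (hyF i))) (hfy i) ?_ hw' (hbd _ (hyF i) h1)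
        (hzl i) haa (fun n => (hE i n).1) (fun n => (hE i n).2)
      unfold rh
      rw [hzp _ (hyF i), h1]
      ring
  have hyr : ∀ i, 0 < rh (φ (y i)) (z (y i)) := by
    intro i
    unfold rh
    rw [hzp _ (hyF i)]
    nlinarith [norm_nonneg (y i), hyb i]
  have hyl : ∀ i, fderiv ℝ (fun w => h (φ (y i) w)) (z (y i)) = 0 ∧
      ∀ u : ℂ, fderiv ℝ (fderiv ℝ (fun w => h (φ (y i) w))) (z (y i)) u u ≤ 0 := fun i =>
    inner_lim (hat _ (hyF i) _ (hzU _ (hyF i))) (hfy i) (hyr i) (hzl i) haa htt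
      (fun n => (hE i n).1) (fun n => (hE i n).2)
  have hymax : ∀ i, IsLocalMaxOn h F (y i) := by
    intro i
    have h1 : IsLocalMax (fun w => h (φ (y i) w)) (z (y i)) :=
      localMax_test (hfy i) (hyl i).1 fun u hu =>
        negdef (hfy i) (hyl i).2 (hnd _ (hyF i) (hyb i) (hyl i).1) hu
    have h2 := maxOn_of (hB _ (hyF i)) (hVo _ (hyF i)) (hFV _ (hyF i)) (hzU _ (hyF i))
      (by rw [hzp _ (hyF i)]; exact hpV _ (hyF i)) h1
    rwa [hzp _ (hyF i)] at h2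
  have hyi : Function.Injective y := by
    intro i j hij
    by_contra hne
    refine no_merge (hat _ (hyF i) _ (hzU _ (hyF i))) (hfy i) (hyr i)
      (hnd _ (hyF i) (hyb i) (hyl i).1) (hzl i) (by rw [hij]; exact hzl j) haa htt
      (fun n => (hE i n).1) (fun n => by rw [hij]; exact (hE j n).1) (fun n hn => hne ?_)
    apply hxi (θ (n + n₀))
    have g1 := (hgood i n).2.1
    have g2 := (hgood j n).2.1
    rw [← hij] at g2
    rw [← g1, ← g2, hn]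
  have h1 : ((m + 1 : ℕ) : ℕ∞) ≤ {p : E4 | p ∈ F ∧ ‖p‖ < 1 ∧ IsLocalMaxOn h F p}.encard := by
    have h2 : ((Finset.univ.map ⟨y, hyi⟩ : Finset E4) : Set E4) ⊆
        {p : E4 | p ∈ F ∧ ‖p‖ < 1 ∧ IsLocalMaxOn h F p} := by
      intro z hz
      simp only [Finset.coe_map, Function.Embedding.coeFn_mk, Finset.coe_univ, image_univ,
        mem_range] at hz
      obtain ⟨i, rfl⟩ := hz
      exact ⟨hyF i, hyb i, hymax i⟩
    have h3 := Set.encard_le_encard h2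
    rw [Set.encard_coe_eq_coe_finsetCard] at h3
    simpa using h3
  have h2 := h1.trans hmax
  have h3 : m + 1 ≤ m := by exact_mod_cast h2
  omega

end Pool.Agent.Q196.RG
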