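import Pool.Agent.Q196.SR.Amb
import Pool.Agent.Y503.RB.Def3

/-!
The push is a diffeomorphism near compact subsets of the closed ball.
-/

set_option autoImplicit false

namespace Pool.Agent.Q196.RG

open scoped ContDiff RealInnerProductSpace ENNReal Topology
open MeasureTheory Set Metric Filter Pool.Agent.Y503.RB Pool.Agent.Q196.SR

theorem exists_eqv (A : E4 →L[ℝ] E4) (hA : Function.Injective A) :
    ∃ B : E4 ≃L[ℝ] E4, (B : E4 →L[ℝ] E4) = A := by
  refine ⟨(LinearEquiv.ofInjectiveEndo (A : E4 →ₗ[ℝ] E4) hA).toContinuousLinearEquiv, ?_⟩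
  ext x
  simp

/-- A smooth map which is injective on a compact set and has injective derivatives there is a
diffeomorphism between open sets. -/
theorem exists_diffeo {Φ : E4 → E4} {W K : Set E4} (hW : IsOpen W) (hs : ContDiffOn ℝ ∞ Φ W)
    (himm : ∀ x ∈ W, Function.Injective (fderiv ℝ Φ x)) (hK : IsCompact K) (hKW : K ⊆ W)
    (hinj : InjOn Φ K) :
    ∃ (Ψ : E4 → E4) (D D' : Set E4), IsOpen D ∧ IsOpen D' ∧ K ⊆ D ∧ D ⊆ W ∧
      (∀ x ∈ D, Φ x ∈ D' ∧ Ψ (Φ x) = x ∧ ContDiffAt ℝ ∞ Φ x) ∧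
      (∀ w ∈ D', Ψ w ∈ D ∧ Φ (Ψ w) = w ∧ ContDiffAt ℝ ∞ Ψ w) := by
  classical
  have hn : (∞ : WithTop ℕ∞) ≠ 0 := by simp
  have hat : ∀ x ∈ W, ContDiffAt ℝ ∞ Φ x := fun x hx => hs.contDiffAt (hW.mem_nhds hx)
  have hfd : ∀ x ∈ W, ∃ B : E4 ≃L[ℝ] E4, HasFDerivAt Φ (B : E4 →L[ℝ] E4) x := by
    intro x hx
    obtain ⟨B, hB⟩ := exists_eqv _ (himm x hx)
    exact ⟨B, by rw [hB]; exact ((hat x hx).differentiableAt hn).hasFDerivAt⟩
  choose! B hB using hfd
  obtain ⟨t, ht, hKt, htinj⟩ := hinj.exists_isOpen_superset hK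
    (fun x hx => (hat x (hKW hx)).continuousAt) (fun x hx => by
      have h1 := hat x (hKW hx)
      have h2 := hB x (hKW hx)
      refine ⟨(h1.toOpenPartialHomeomorph Φ h2 hn).source,
        (h1.toOpenPartialHomeomorph Φ h2 hn).open_source.mem_nhds
          (h1.mem_toOpenPartialHomeomorph_source h2 hn), ?_⟩
      have h3 := (h1.toOpenPartialHomeomorph Φ h2 hn).injOn
      rwa [h1.toOpenPartialHomeomorph_coe h2 hn] at h3)
  set D := t ∩ W with hD
  have hDo : IsOpen D := ht.inter hW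
  have hDinj : InjOn Φ D := htinj.mono inter_subset_left
  have hstr : ∀ x ∈ D, HasStrictFDerivAt Φ (B x : E4 →L[ℝ] E4) x := fun x hx =>
    (hat x hx.2).hasStrictFDerivAt' (hB x hx.2) hn
  have hinv : ∀ x ∈ D, Function.invFunOn Φ D (Φ x) = x := fun x hx =>
    hDinj (Function.invFunOn_mem ⟨x, hx, rfl⟩) hx (Function.invFunOn_eq ⟨x, hx, rfl⟩)
  refine ⟨Function.invFunOn Φ D, D, Φ '' D, hDo, ?_, fun x hx => ⟨hKt hx, hKW hx⟩,
    inter_subset_right, ?_, ?_⟩
  · rw [isOpen_iff_mem_nhds]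
    rintro _ ⟨x, hx, rfl⟩
    rw [← (hstr x hx).map_nhds_eq_of_equiv]
    exact image_mem_map (hDo.mem_nhds hx)
  · intro x hx
    exact ⟨⟨x, hx, rfl⟩, hinv x hx, hat x hx.2⟩
  · rintro _ ⟨x, hx, rfl⟩
    rw [hinv x hx]
    refine ⟨hx, rfl, ?_⟩
    have h1 := hat x hx.2
    have h2 := hB x hx.2
    set e := h1.toOpenPartialHomeomorph Φ h2 hn with he
    have hes : x ∈ e.source := h1.mem_toOpenPartialHomeomorph_source h2 hn
    have hec : (e : E4 → E4) = Φ := h1.toOpenPartialHomeomorph_coe h2 hn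
    have het : Φ x ∈ e.target := by
      rw [← hec]
      exact e.map_source hes
    have hsx : e.symm (Φ x) = x := by
      rw [← hec]
      exact e.left_inv hes
    have h3 : ContDiffAt ℝ ∞ e.symm (Φ x) := by
      refine e.contDiffAt_symm het (f₀' := B x) ?_ ?_
      · rw [hsx, hec]
        exact h2
      · rw [hsx, hec]
        exact h1
    refine h3.congr_of_eventuallyEq ?_
    have h4 : ContinuousAt e.symm (Φ x) := h3.continuousAt
    have h5 : ∀ᶠ w in 𝓝 (Φ x), e.symm w ∈ D := by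
      apply h4
      rw [hsx]
      exact hDo.mem_nhds hx
    filter_upwards [h5, e.open_target.mem_nhds het] with w hw1 hw2
    have h6 : Φ (e.symm w) = w := by
      rw [← hec]
      exact e.right_inv hw2
    have h7 := hinv _ hw1
    rw [h6] at h7
    exact h7

/-- The push near a compact set. -/
theorem rel_diffeo {g : E4 → ℝ} {q : E4} (h : Rad g q) (hneg : ∀ x : E4, 1 < ‖x‖ → g x < 0)
    {F : Set E4} (hF : IsCompact F) (hsub : F ⊆ closedBall 0 1) (hq : q ∉ F) :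
    ∃ (Ψ : E4 → E4) (D D' : Set E4), RelDiffeo (pushG g q) Ψ D D' ∧ F ⊆ D ∧ q ∉ D := by
  have hbd := h.diffeo
  obtain ⟨V, hV, hVs, hgs⟩ := h.smoothOn
  have hO1 : IsOpen (V ∩ {q}ᶜ) := hV.inter isOpen_compl_singleton
  have hgc : ContinuousOn (fun x => 1 - g x / g q) (V ∩ {q}ᶜ) :=
    continuousOn_const.sub ((hgs.continuousOn.mono inter_subset_left).div_const _)
  have hO2 := hgc.isOpen_inter_preimage hO1 isOpen_Ioi (t := Ioi 0)
  set W2 : Set E4 := (V ∩ {q}ᶜ) ∩ (fun x => 1 - g x / g q) ⁻¹' Ioi 0 with hW2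
  have hsm : ContDiffOn ℝ ∞ (pushG g q) W2 := by
    intro x hx
    have h5 : ContDiffAt ℝ ∞ g x := hgs.contDiffAt (hV.mem_nhds hx.1.1)
    exact (push_smooth h.lt h5 hx.1.2 hx.2).contDiffWithinAt
  have hc : ContinuousOn (fderiv ℝ (pushG g q)) W2 :=
    hsm.continuousOn_fderiv_of_isOpen hO2 (by simp)
  have hO3 := hc.isOpen_inter_preimage hO2
    (ContinuousLinearMap.isOpen_injective (𝕜 := ℝ) (E := E4) (F := E4))
  set W3 : Set E4 := W2 ∩ (fderiv ℝ (pushG g q)) ⁻¹' {φ | Function.Injective φ} with hW3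
  have hle : ∀ x ∈ F, x ∈ closedBall (0 : E4) 1 \ {q} := fun x hx =>
    ⟨hsub hx, fun h0 => hq (by rw [← (h0 : x = q)]; exact hx)⟩
  have hKW : F ⊆ W3 := by
    intro x hx
    have h1 := hle x hx
    have h2 : ‖x‖ ≤ 1 := by simpa using h1.1
    have h3 : x ≠ q := h1.2
    exact ⟨⟨⟨hVs h1.1, h3⟩, h.frac_pos h2 h3⟩, hbd.imm x h1⟩
  obtain ⟨Ψ, D, D', hDo, hDo', hFD, hDW, hmap, hmap'⟩ := exists_diffeo hO3
    (hsm.mono inter_subset_left) (fun x hx => hx.2) hF hKW
    (hbd.bij.injOn.mono fun x hx => hle x hx)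
  have hgD : ∀ x ∈ D, x ≠ q ∧ 0 < 1 - g x / g q ∧ ContDiffAt ℝ ∞ g x := fun x hx =>
    ⟨(hDW hx).1.1.2, (hDW hx).1.2, hgs.contDiffAt (hV.mem_nhds (hDW hx).1.1.1)⟩
  have hq0 := h.max_pos
  have hsq : ∀ x ∈ D, ‖pushG g q x‖ ^ 2 = 1 - g x / g q := fun x hx =>
    push_normsq h.lt (hgD x hx).1 (hgD x hx).2.1
  have hlt : ∀ x ∈ D, ‖pushG g q x‖ < 1 ↔ 0 < g x := by
    intro x hx
    have h1 := hsq x hx
    constructor
    · intro h2
      have h3 : 0 < g x / g q := by nlinarith [norm_nonneg (pushG g q x)]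
      exact (div_pos_iff_of_pos_right hq0).1 h3
    · intro h2
      have h3 : 0 < g x / g q := div_pos h2 hq0
      nlinarith [norm_nonneg (pushG g q x)]
  have heq : ∀ x ∈ D, ‖pushG g q x‖ = 1 ↔ g x = 0 := by
    intro x hx
    have h1 := hsq x hx
    constructor
    · intro h2
      rw [h2] at h1
      have h3 : g x / g q = 0 := by linarith
      rcases div_eq_zero_iff.mp h3 with h4 | h4
      · exact h4
      · exact absurd h4 hq0.ne'
    · intro h2
      rw [h2] at h1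
      have h3 : ‖pushG g q x‖ ^ 2 = 1 := by rw [h1]; simp
      nlinarith [norm_nonneg (pushG g q x)]
  refine ⟨Ψ, D, D', ⟨hDo, hDo', hmap, hmap', ?_, ?_, ?_, ?_⟩, hFD, fun hqD => (hgD q hqD).1 rfl⟩
  · intro x hx
    rw [hlt x hx]
    constructor
    · intro h1
      rcases lt_trichotomy ‖x‖ 1 with h2 | h2 | h2
      · exact h2
      · rw [h.zero x h2] at h1
        exact absurd h1 (lt_irrefl _)
      · exact absurd h1 (not_lt.2 (hneg x h2).le)
    · exact h.pos x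
  · intro x hx
    rw [heq x hx]
    constructor
    · intro h1
      rcases lt_trichotomy ‖x‖ 1 with h2 | h2 | h2
      · exact absurd h1 (h.pos x h2).ne'
      · exact h2
      · exact absurd h1 (hneg x h2).ne
    · exact h.zero x
  · intro x _ hx1
    exact push_fix h hx1
  · intro φ z hz hz1 hφ
    obtain ⟨c, hc, hcd⟩ := h.bd (φ z) hz1
    refine ⟨c / (2 * g q), by positivity, ?_⟩
    have hd1 : DifferentiableAt ℝ φ z := hφ.differentiableAt (by simp)
    have hg1 : DifferentiableAt ℝ g (φ z) := (hgD _ hz).2.2.differentiableAt (by simp)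
    have hev : (fun w => ‖pushG g q (φ w)‖ ^ 2) =ᶠ[𝓝 z] fun w => 1 - g (φ w) / g q := by
      filter_upwards [hφ.continuousAt.eventually (hDo.mem_nhds hz)] with w hw
      exact hsq _ hw
    rw [hev.fderiv_eq]
    have h2 : HasFDerivAt (fun w => g (φ w)) ((fderiv ℝ g (φ z)).comp (fderiv ℝ φ z)) z :=
      hg1.hasFDerivAt.comp z hd1.hasFDerivAt
    have h3 : HasFDerivAt (fun w => 1 - g (φ w) / g q)
        (-((g q)⁻¹ • ((fderiv ℝ g (φ z)).comp (fderiv ℝ φ z)))) z := by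
      have := (h2.const_smul (g q)⁻¹).const_sub 1
      refine this.congr_of_eventuallyEq (Eventually.of_forall fun w => ?_)
      simp [div_eq_inv_mul]
    rw [h3.fderiv]
    ext w
    have h4 : fderiv ℝ (fun w => ‖φ w‖ ^ 2) z w = 2 * ⟪φ z, fderiv ℝ φ z w⟫ := by
      rw [(hd1.hasFDerivAt.norm_sq).fderiv]
      simp
    simp only [ContinuousLinearMap.neg_apply, ContinuousLinearMap.smul_apply,
      ContinuousLinearMap.comp_apply, smul_eq_mul]
    rw [hcd, h4]
    field_simp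

end Pool.Agent.Q196.RG
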