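import Pool.Agent.Q196.SR.MainA
import Pool.Agent.Q196.RG.CloseS
import Pool.Agent.Q196.RG.Diff
import Pool.Agent.Y794.RB.Gsurf
import Pool.Agent.Y487.RB.LP

/-!
The convex function criterion for surfaces.
-/

set_option autoImplicit false

namespace Pool.Agent.Q196.RG

open scoped ContDiff RealInnerProductSpace ENNReal Topology
open MeasureTheory Set Metric Filter Pool.Agent.Y503.RB Pool.Agent.Q196.SR

/-- Compact surfaces in the ball and convex functions. -/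
theorem convex_surf {F : Set E4} (hF : PSurf F) {h : E4 → ℝ} {W : Set E4} (hW : IsOpen W)
    (hWs : closedBall (0 : E4) 1 ⊆ W) (hs : ContDiffOn ℝ ∞ h W)
    (hc : ConvexOn ℝ (closedBall (0 : E4) 1) h) (hm : MorseOn h F) {m : ℕ}
    (hmax : {p : E4 | p ∈ F ∧ ‖p‖ < 1 ∧ IsLocalMaxOn h F p}.encard ≤ m) :
    ∃ (q : E4) (G : E4 → E4), BallDiffeo q G ∧ q ∉ F ∧ PSurf (G '' F) ∧
      G '' F ∩ sphere 0 1 = F ∩ sphere 0 1 ∧ MorseSurf (G '' F) m := by
  classical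
  obtain ⟨N, hN⟩ := closeS hF hW hWs hs hm hmax
  set t : ℝ := (N : ℝ) + 1 with ht_def
  have ht : 0 < t := by positivity
  have hle : ∀ x ∈ F, ‖x‖ ≤ 1 := fun x hx => by simpa using hF.sub hx
  have hh : ∀ q : E4, ‖q‖ ≤ 1 → ContDiffAt ℝ ∞ h q := fun q hq =>
    hs.contDiffAt (hW.mem_nhds (hWs (by simpa using hq)))
  obtain ⟨ψ, U, V, hall, hcov⟩ := Pool.Agent.Y487.RB.lp F hF
  have hpat : ∀ i, Patch (ψ i) (U i) := fun i => (hall i).2.1
  have hψ : ∀ i, ∀ z ∈ U i, ContDiffAt ℝ ∞ (ψ i) z := fun i z hz =>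
    (hpat i).smooth.contDiffAt ((hpat i).isOpen.mem_nhds hz)
  have hψF : ∀ i, ∀ z ∈ U i, ψ i z ∈ F := fun i z hz => by
    have : ψ i z ∈ ψ i '' U i := ⟨z, hz, rfl⟩
    rw [← (hall i).2.2.2] at this
    exact this.1
  have hin : ∀ i, ∀ z ∈ U i, ‖ψ i z‖ < 1 := fun i z hz => (hpat i).inside z hz
  have hrh : ∀ i, ∀ z ∈ U i, 0 < rh (ψ i) z := fun i z hz => by
    have := hin i z hz
    unfold rh
    nlinarith [norm_nonneg (ψ i z)]
  have hhψ : ∀ i, ∀ z ∈ U i, ContDiffAt ℝ ∞ h (ψ i z) := fun i z hz => hh _ (hin i z hz).le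
  choose B hB0 hB using fun i => ae_nondeg ht (hpat i) (hhψ i)
  have hC0 : ∀ i, volume {y : E4 | ∃ r : ℝ, ∃ z ∈ U i, y = r • Av h t (ψ i) z} = 0 := fun i =>
    Pool.Agent.Y977.RB.null (Av h t (ψ i)) (U i) (hpat i).isOpen (fun z hz =>
      (Av_smooth ht (hψ i z hz) (hrh i z hz) (hhψ i z hz)).contDiffWithinAt)
  set C : ℕ → Set E4 := fun i => {y : E4 | ∃ r : ℝ, ∃ z ∈ U i, y = r • Av h t (ψ i) z} with hCdef
  obtain ⟨a, ha, haBC⟩ : ∃ a ∈ ball (0 : E4) (1 / t), a ∉ ⋃ i, (B i ∪ C i) := by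
    by_contra hcon
    push Not at hcon
    have h1 : volume (ball (0 : E4) (1 / t)) ≤ volume (⋃ i, (B i ∪ C i)) := measure_mono hcon
    rw [measure_iUnion_null fun i => measure_union_null (hB0 i) (hC0 i)] at h1
    exact absurd (measure_ball_pos volume (0 : E4) (by positivity : 0 < 1 / t)) (not_lt.mpr h1)
  have haB : ∀ i, a ∉ B i := fun i h => haBC (mem_iUnion.mpr ⟨i, Or.inl h⟩)
  have haC : ∀ i, a ∉ C i := fun i h => haBC (mem_iUnion.mpr ⟨i, Or.inr h⟩)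
  have han : ‖a‖ ≤ 1 / t := (by simpa using ha : ‖a‖ < 1 / t).le
  have hcount := hN t a le_rfl han
  -- the function `H`
  set H : E4 → ℝ := fun x => h x + ⟪a, x⟫ with hH
  have hHs : ContDiffOn ℝ ∞ H W := hs.add (contDiff_const.inner ℝ contDiff_id).contDiffOn
  have hHc : ConvexOn ℝ (closedBall (0 : E4) 1) H := by
    refine hc.add ?_
    refine ⟨convex_closedBall _ _, fun x _ y _ α β _ _ _ => ?_⟩
    simp only [inner_add_right, inner_smul_right, smul_eq_mul]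
    exact le_rfl
  obtain ⟨q, hR, hq⟩ := exists_rad hW hWs hHs hHc ht
  have hqF : q ∉ F := by
    intro hqF
    obtain ⟨i, hi⟩ := mem_iUnion.mp (hcov ⟨hqF, by simpa using hR.lt⟩)
    obtain ⟨z, hz, hzq⟩ := hi
    apply haC i
    refine ⟨1, z, hz, ?_⟩
    rw [one_smul]
    refine eq_of_inner fun w => ?_
    have h1 := hq w
    have hhq : DifferentiableAt ℝ h q := (hh q hR.lt.le).differentiableAt (by simp)
    have h2 : fderiv ℝ H q w = fderiv ℝ h q w + ⟪a, w⟫ := by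
      have h3 : HasFDerivAt (fun x : E4 => (⟪a, x⟫ : ℝ)) (innerSL ℝ a) q :=
        (innerSL ℝ a).hasFDerivAt
      have h4 : HasFDerivAt H (fderiv ℝ h q + innerSL ℝ a) q := hhq.hasFDerivAt.add h3
      rw [h4.fderiv]
      simp
    rw [h2] at h1
    have hr := hrh i z hz
    have hr2 : 1 - ‖q‖ ^ 2 = rh (ψ i) z := by
      unfold rh
      rw [hzq]
    rw [hr2] at h1
    unfold Av
    rw [hzq, inner_sub_left, inner_neg_left, inner_smul_left, inner_gr]
    simp only [conj_trivial]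
    have htr : t * rh (ψ i) z ≠ 0 := by positivity
    have h5 : (⟪a, w⟫ : ℝ) = -(2 * ⟪q, w⟫) / (t * rh (ψ i) z) - fderiv ℝ h q w := by
      rw [h1]
      field_simp
      ring
    rw [h5]
    ring
  have hneg : ∀ x : E4, 1 < ‖x‖ → gfun H t x < 0 := by
    intro x hx
    unfold gfun
    exact mul_neg_of_neg_of_pos (by nlinarith) (Real.exp_pos _)
  obtain ⟨Ψ, D, D', hRel, hFD, hqD⟩ := rel_diffeo hR hneg hF.compact hF.sub hqF
  set Φ := pushG (gfun H t) q with hΦ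
  obtain ⟨hPS, hbd⟩ := Pool.Agent.Y794.RB.gsurf Φ Ψ D D' F hRel hF hFD
  refine ⟨q, Φ, hR.diffeo, hqF, hPS, hbd, ?_, ?_⟩
  · -- nondegeneracy
    rintro _ ⟨p, hp, rfl⟩ hp1
    have hp2 : ‖p‖ < 1 := (hRel.lt_one p (hFD hp)).1 hp1
    obtain ⟨i, hi⟩ := mem_iUnion.mp (hcov ⟨hp, by simpa using hp2⟩)
    obtain ⟨z, hz, rfl⟩ := hi
    have hpc : ContinuousOn Ψ D' := fun w hw =>
      ((hRel.map' w hw).2.2.continuousAt).continuousWithinAt
    have hVo : IsOpen (D' ∩ Ψ ⁻¹' (V i)) :=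
      hpc.isOpen_inter_preimage hRel.isOpen' (hall i).2.2.1
    have hzV : ψ i z ∈ V i := by
      have : ψ i z ∈ ψ i '' U i := ⟨z, hz, rfl⟩
      rw [← (hall i).2.2.2] at this
      exact this.2
    refine ⟨fun w => Φ (ψ i w), U i, D' ∩ Ψ ⁻¹' (V i), z,
      Pool.Agent.Y794.RB.bpatch_comp hRel (hall i).1 (fun w hw => hFD (hψF i w hw)), hVo,
      ⟨(hRel.map _ (hFD hp)).1, ?_⟩, ?_, hz, rfl, ?_⟩
    · show Ψ (Φ (ψ i z)) ∈ V i
      rw [(hRel.map _ (hFD hp)).2.1]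
      exact hzV
    · ext w
      constructor
      · rintro ⟨⟨x, hx, rfl⟩, _, hx2⟩
        have hx3 : Ψ (Φ x) ∈ V i := hx2
        rw [(hRel.map _ (hFD hx)).2.1] at hx3
        have hx4 : x ∈ ψ i '' U i := by
          rw [← (hall i).2.2.2]
          exact ⟨hx, hx3⟩
        obtain ⟨w, hw, rfl⟩ := hx4
        exact ⟨w, hw, rfl⟩
      · rintro ⟨w, hw, rfl⟩
        refine ⟨⟨ψ i w, hψF i w hw, rfl⟩, (hRel.map _ (hFD (hψF i w hw))).1, ?_⟩
        show Ψ (Φ (ψ i w)) ∈ V i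
        rw [(hRel.map _ (hFD (hψF i w hw))).2.1]
        have : ψ i w ∈ ψ i '' U i := ⟨w, hw, rfl⟩
        rw [← (hall i).2.2.2] at this
        exact this.2
    · intro hcr u hu
      have hcpos : 0 < (gfun H t q)⁻¹ := inv_pos.mpr hR.max_pos
      have hev : (fun w => ‖Φ (ψ i w)‖ ^ 2) =ᶠ[𝓝 z]
          fun w => 1 - (gfun H t q)⁻¹ * PP (ψ i) (fun w => h (ψ i w)) t a w := by
        filter_upwards [(hpat i).isOpen.mem_nhds hz] with w hw
        have hwq : ψ i w ≠ q := fun h0 => hqF (h0 ▸ hψF i w hw)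
        rw [hΦ, push_normsq hR.lt hwq (hR.frac_pos (hin i w hw).le hwq)]
        have : gfun H t (ψ i w) = PP (ψ i) (fun w => h (ψ i w)) t a w := rfl
        rw [this]
        ring
      have hPs : ContDiffAt ℝ ∞ (PP (ψ i) (fun w => h (ψ i w)) t a) z := by
        have h1 := hψ i z hz
        have h2 : ContDiffAt ℝ ∞ (fun w => h (ψ i w)) z := (hhψ i z hz).comp z h1
        unfold PP
        exact (rh_smooth h1).mul
          (contDiffAt_const.mul (h2.add (contDiffAt_const.inner ℝ h1))).neg.exp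
      obtain ⟨h1, h2, -⟩ := affine_calc hcpos hPs hev
      refine hB i a (haB i) z hz (h1 hcr) u fun v => ?_
      have h3 := hu v
      rw [h2 u v] at h3
      exact (mul_eq_zero.mp h3).resolve_left (neg_ne_zero.mpr hcpos.ne')
  · -- local maxima
    have hsub : {p' : E4 | p' ∈ Φ '' F ∧ ‖p'‖ < 1 ∧ IsLocalMaxOn (fun x => ‖x‖) (Φ '' F) p'} ⊆
        Φ '' {p : E4 | p ∈ F ∧ ‖p‖ < 1 ∧ IsLocalMinOn (gfun H t) F p} := by
      rintro _ ⟨⟨p, hp, rfl⟩, hp1, hp2⟩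
      refine ⟨p, ⟨hp, (hRel.lt_one p (hFD hp)).1 hp1, ?_⟩, rfl⟩
      have hcont : ContinuousAt Φ p := (hRel.map p (hFD hp)).2.2.continuousAt
      have h1 : Tendsto Φ (𝓝[F] p) (𝓝[Φ '' F] (Φ p)) :=
        tendsto_nhdsWithin_iff.mpr ⟨hcont.continuousWithinAt,
          by filter_upwards [self_mem_nhdsWithin] with x hx using ⟨x, hx, rfl⟩⟩
      have h2 := h1.eventually hp2
      filter_upwards [h2, self_mem_nhdsWithin] with x hx hxF
      have hsq : ∀ y ∈ F, ‖Φ y‖ ^ 2 = 1 - gfun H t y / gfun H t q := fun y hy => by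
        have hyq : y ≠ q := fun h0 => hqF (h0 ▸ hy)
        exact push_normsq hR.lt hyq (hR.frac_pos (hle y hy) hyq)
      have h3 : ‖Φ x‖ ^ 2 ≤ ‖Φ p‖ ^ 2 := pow_le_pow_left₀ (norm_nonneg _) hx 2
      rw [hsq x hxF, hsq p hp] at h3
      have h4 : gfun H t p / gfun H t q ≤ gfun H t x / gfun H t q := by linarith
      exact (div_le_div_iff_of_pos_right hR.max_pos).1 h4
    exact (encard_le_encard hsub).trans ((encard_image_le _ _).trans hcount)

end Pool.Agent.Q196.RG
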