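import Pool.Agent.Q196.SR.Bdry
import Pool.Agent.Q196.RG.ConvS

/-!
Surfaces: a linear function with few local maxima.
-/

set_option autoImplicit false

namespace Pool.Agent.Q196.RG

open scoped ContDiff RealInnerProductSpace ENNReal Topology
open MeasureTheory Set Metric Filter Pool.Agent.Y503.RB Pool.Agent.Q196.SR

/-- Regular level sets are null sets. -/
theorem null_level {f : ℂ → ℝ} {S : Set ℂ} (hd : ∀ z ∈ S, DifferentiableAt ℝ f z)
    (hn : ∀ z ∈ S, fderiv ℝ f z ≠ 0) (hc : ∀ z ∈ S, ∀ w ∈ S, f w = f z) : volume S = 0 := by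
  have hw : ∀ z ∈ S, ∃ w : ℂ, fderiv ℝ f z w ≠ 0 := by
    intro z hz
    by_contra h
    push Not at h
    exact hn z hz (ContinuousLinearMap.ext h)
  choose! w hw using hw
  set f' : ℂ → ℂ →L[ℝ] ℂ := fun z => ContinuousLinearMap.id ℝ ℂ -
    (fderiv ℝ f z (w z))⁻¹ • (fderiv ℝ f z).smulRight (w z) with hf'
  have h1 : ∀ z ∈ S, HasFDerivWithinAt (id : ℂ → ℂ) (f' z) S z := by
    intro z hz
    have h2 : HasFDerivAt (fun y => f y - f z) (fderiv ℝ f z) z :=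
      ((hd z hz).hasFDerivAt).sub_const (f z)
    have h3 : HasFDerivAt (fun y => (fderiv ℝ f z (w z))⁻¹ • ((f y - f z) • w z))
        ((fderiv ℝ f z (w z))⁻¹ • (fderiv ℝ f z).smulRight (w z)) z := by
      have h3a := (h2.smul_const (w z)).const_smul ((fderiv ℝ f z (w z))⁻¹)
      exact h3a.congr_of_eventuallyEq (Eventually.of_forall fun y => rfl)
    have h4 := ((hasFDerivAt_id (𝕜 := ℝ) z).sub h3).hasFDerivWithinAt (s := S)
    refine h4.congr (fun y hy => ?_) ?_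
    · simp [hc z hz y hy]
    · simp
  have h2 : ∀ z ∈ S, (f' z).det = 0 := by
    intro z hz
    by_contra h
    have h3 : f' z (w z) = 0 := by
      simp only [hf', ContinuousLinearMap.sub_apply, ContinuousLinearMap.id_apply,
        ContinuousLinearMap.smul_apply, ContinuousLinearMap.smulRight_apply]
      rw [smul_smul, inv_mul_cancel₀ (hw z hz), one_smul, sub_self]
    have h4 : (LinearMap.equivOfDetNeZero (f' z : ℂ →ₗ[ℝ] ℂ) h) (w z) = 0 := h3
    have h5 : w z = 0 := (LinearEquiv.map_eq_zero_iff _).1 h4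
    apply hw z hz
    rw [h5, map_zero]
  have h3 := addHaar_image_eq_zero_of_det_fderivWithin_eq_zero volume h1 h2
  simpa using h3

theorem cylS_null {S : Set ℂ} (hS : volume S = 0) : volume {x : E4 | zc x ∈ S} = 0 := by
  have hset : {x : E4 | zc x ∈ S} =
      Pool.Agent.Y919.RB.coE ⁻¹' ((univ : Set ℝ) ×ˢ ((univ : Set ℝ) ×ˢ S)) := by
    ext x
    simp only [mem_ofPred_eq, mem_preimage, Pool.Agent.Y919.RB.coE_apply, mem_prod, mem_univ,
      true_and]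
  have h2 : (volume : Measure (ℝ × ℂ)) ((univ : Set ℝ) ×ˢ S) = 0 := by
    rw [Measure.volume_eq_prod, Measure.prod_prod, hS, mul_zero]
  have h3 : (volume : Measure (ℝ × (ℝ × ℂ))) ((univ : Set ℝ) ×ˢ ((univ : Set ℝ) ×ˢ S)) = 0 := by
    rw [Measure.volume_eq_prod, Measure.prod_prod, h2, mul_zero]
  rw [hset, Pool.Agent.Y919.RB.coE_mp.measure_preimage (NullMeasurableSet.of_null h3)]
  exact h3

/-- Vectors normal to a surface piece at boundary points. -/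
theorem bdS {φ : ℂ → E4} {U : Set ℂ} (h : BPatch φ U) :
    volume {y : E4 | ∃ z ∈ U, ‖φ z‖ = 1 ∧ ∀ u : ℂ, (⟪y, fderiv ℝ φ z u⟫ : ℝ) = 0} = 0 := by
  have hd : ∀ z ∈ U, DifferentiableAt ℝ φ z := fun z hz =>
    (h.smooth.contDiffAt (h.isOpen.mem_nhds hz)).differentiableAt (by simp)
  have hO := h.smooth.continuousOn.norm.isOpen_inter_preimage h.isOpen isOpen_Iio (t := Iio 2)
  set U0 : Set ℂ := U ∩ (fun z => ‖φ z‖) ⁻¹' Iio 2 with hU0
  have hP : Patch (fun w => (1 / 2 : ℝ) • φ w) U0 := by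
    refine ⟨hO, ?_, ?_, ?_⟩
    · have h3 : ContDiffOn ℝ ∞ (fun w => (1 / 2 : ℝ) • φ w) U := h.smooth.const_smul (1 / 2 : ℝ)
      exact h3.mono inter_subset_left
    · intro z hz
      have h1 : fderiv ℝ (fun w => (1 / 2 : ℝ) • φ w) z = (1 / 2 : ℝ) • fderiv ℝ φ z :=
        fderiv_fun_const_smul (hd z hz.1) _
      rw [h1]
      intro a b hab
      have h2 : (1 / 2 : ℝ) • fderiv ℝ φ z a = (1 / 2 : ℝ) • fderiv ℝ φ z b := hab
      exact h.imm z hz.1 (smul_right_injective E4 (by norm_num : (1 / 2 : ℝ) ≠ 0) h2)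
    · intro z hz
      have h1 : ‖φ z‖ < 2 := hz.2
      show ‖(1 / 2 : ℝ) • φ z‖ < 1
      rw [norm_smul]
      norm_num
      linarith
  set S : Set ℂ := {z | z ∈ U ∧ ‖φ z‖ = 1} with hS
  have hS0 : volume S = 0 := by
    refine null_level (f := fun w => ‖φ w‖ ^ 2) (fun z hz => ?_) (fun z hz => h.trans z hz.1 hz.2)
      (fun z hz w hw => ?_)
    · exact ((hd z hz.1).norm_sq ℝ)
    · show ‖φ w‖ ^ 2 = ‖φ z‖ ^ 2
      rw [hz.2, hw.2]
  obtain ⟨N₁, N₂, U', h1, h2⟩ := Pool.Agent.Y232.RB.Ref.cover Pool.Agent.Y297.RB.lf hP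
  set G : ℕ → E4 → E4 := fun j x => x 2 • N₁ j (zc x) + x 3 • N₂ j (zc x) with hG
  have hsub : {y : E4 | ∃ z ∈ U, ‖φ z‖ = 1 ∧ ∀ u : ℂ, (⟪y, fderiv ℝ φ z u⟫ : ℝ) = 0} ⊆
      ⋃ j, G j '' {x | zc x ∈ U' j ∧ zc x ∈ S} := by
    rintro y ⟨z, hz, hz1, hy⟩
    have hzU : z ∈ U0 := ⟨hz, by show ‖φ z‖ < 2; rw [hz1]; norm_num⟩
    obtain ⟨j, hj⟩ := mem_iUnion.mp (h2 hzU)
    have hf : ∀ u, fderiv ℝ (fun w => (1 / 2 : ℝ) • φ w) z u = (1 / 2 : ℝ) • fderiv ℝ φ z u := by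
      intro u
      have : fderiv ℝ (fun w => (1 / 2 : ℝ) • φ w) z = (1 / 2 : ℝ) • fderiv ℝ φ z :=
        fderiv_fun_const_smul (hd z hz) _
      rw [this]
      rfl
    obtain ⟨α, β, hαβ⟩ := span_of_orth
      (Pool.Agent.Y232.RB.Ref.patch_mono hP (h1 j).2.2 (h1 j).1) (h1 j).2.1 hj (v := y) (by
        intro u
        rw [hf, inner_smul_right, hy u, mul_zero])
    refine mem_iUnion.mpr ⟨j, mk4 z α β, ⟨by simpa using hj, ?_⟩, ?_⟩
    · rw [mk4_zc]
      exact ⟨hz, hz1⟩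
    · simp only [hG, mk4_zc, mk4_two, mk4_three]
      exact hαβ.symm
  refine measure_mono_null hsub (measure_iUnion_null fun j => ?_)
  refine addHaar_image_eq_zero_of_differentiableOn_of_addHaar_eq_zero volume ?_
    (measure_mono_null (fun x hx => hx.2) (cylS_null hS0))
  intro x hx
  have hUn : U' j ∈ 𝓝 (zc x) := (h1 j).1.mem_nhds hx.1
  have hN1 : DifferentiableAt ℝ (N₁ j) (zc x) :=
    ((h1 j).2.1.smooth₁.contDiffAt hUn).differentiableAt (by simp)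
  have hN2 : DifferentiableAt ℝ (N₂ j) (zc x) :=
    ((h1 j).2.1.smooth₂.contDiffAt hUn).differentiableAt (by simp)
  have hzc : DifferentiableAt ℝ (zc : E4 → ℂ) x := by
    have : (zc : E4 → ℂ) = fun x => Pool.Agent.Y977.RB.zcL x :=
      funext fun x => (Pool.Agent.Y977.RB.zcL_apply x).symm
    rw [this]
    exact Pool.Agent.Y977.RB.zcL.differentiableAt
  have h3 : DifferentiableAt ℝ (fun x : E4 => N₁ j (zc x)) x :=
    DifferentiableAt.comp (f := zc) (g := N₁ j) x hN1 hzc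
  have h4 : DifferentiableAt ℝ (fun x : E4 => N₂ j (zc x)) x :=
    DifferentiableAt.comp (f := zc) (g := N₂ j) x hN2 hzc
  have hp : ∀ i : Fin 4, DifferentiableAt ℝ (fun y : E4 => y i) x := fun i =>
    (EuclideanSpace.proj (𝕜 := ℝ) i : E4 →L[ℝ] ℝ).differentiableAt
  exact (((hp 2).smul h3).add ((hp 3).smul h4)).differentiableWithinAt

/-- A direction in which a countable family of surface pieces has few local maxima. -/
theorem good_dirs {ι : Type} [Countable ι] {φ : ι → ℂ → E4} {U A : ι → Set ℂ}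
    (hP : ∀ i, Patch (φ i) (U i)) (hA : ∀ i, MeasurableSet (A i)) (hAU : ∀ i, A i ⊆ U i)
    (m : ℕ) (Z : Set E4) (hZ : volume Z = 0)
    (hT : ∑' i, ∫⁻ z in A i, ncurvAt (φ i) z < ENNReal.ofReal (2 * Real.pi ^ 2 * (m + 1))) :
    ∃ (v : E4) (r : ℝ), ‖v‖ = 1 ∧ 0 < r ∧ r • v ∉ Z ∧
      (∀ i, ∀ z ∈ U i, fderiv ℝ (fun w => (⟪v, φ i w⟫ : ℝ)) z = 0 → ∀ u : ℂ,
        (∀ w : ℂ, fderiv ℝ (fderiv ℝ (fun w => (⟪v, φ i w⟫ : ℝ))) z u w = 0) → u = 0) ∧
      ∀ s : Finset (ι × ℂ), (∀ p ∈ s, p.2 ∈ A p.1 ∧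
        IsLocalMax (fun w => (⟪v, φ p.1 w⟫ : ℝ)) p.2) → s.card ≤ m := by
  classical
  choose N₁ N₂ U' h hU using fun i =>
    Pool.Agent.Y232.RB.Ref.cover Pool.Agent.Y297.RB.lf (hP i)
  have hdm : ∀ i j, MeasurableSet (disjointed (U' i) j) :=
    fun i j => MeasurableSet.disjointed (fun k => (h i k).1.measurableSet) j
  set A' : ι × ℕ → Set ℂ := fun p => disjointed (U' p.1) p.2 ∩ A p.1 with hA'
  have hAm : ∀ p, MeasurableSet (A' p) := fun p => (hdm p.1 p.2).inter (hA p.1)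
  have hsub : ∀ p, A' p ⊆ U' p.1 p.2 := fun p =>
    inter_subset_left.trans (disjointed_subset (U' p.1) p.2)
  have hP' : ∀ i j, Patch (φ i) (U' i j) := fun i j =>
    Pool.Agent.Y232.RB.Ref.patch_mono (hP i) (h i j).2.2 (h i j).1
  have hcov : ∀ i, ∀ z ∈ A i, ∃ j, z ∈ A' (i, j) := by
    intro i z hz
    have h1 : z ∈ ⋃ j, disjointed (U' i) j := by
      rw [iUnion_disjointed]
      exact hU i (hAU i hz)
    obtain ⟨j, hj⟩ := mem_iUnion.1 h1
    exact ⟨j, hj, hz⟩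
  set P : ι × ℕ → Set E4 := fun p => {x | zc x ∈ U' p.1 p.2 ∧
    NegDef (φ p.1) (nor (N₁ p.1 p.2) (N₂ p.1 p.2) (x 2) (zc x)) (zc x) ∧ x 3 ∈ Ioo 0 1} with hPd
  set Q : ι × ℕ → Set E4 := fun p => {x | x ∈ P p ∧ zc x ∈ A' p ∧ x 2 ∈ Ico 0 (2 * Real.pi)}
    with hQd
  have hPo : ∀ p, IsOpen (P p) := by
    intro p
    have h2 : P p = (Pool.Agent.Y421.RB.Q ⁻¹' nset (φ p.1) (N₁ p.1 p.2) (N₂ p.1 p.2)
        (U' p.1 p.2)) ∩ (fun x : E4 => x 3) ⁻¹' Ioo 0 1 := by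
      ext x
      simp only [hPd, mem_ofPred_eq, mem_inter_iff, mem_preimage, nset,
        Pool.Agent.Y421.RB.Q_apply]
      tauto
    rw [h2]
    have hc3 : Continuous (fun x : E4 => x 3) := by fun_prop
    exact ((isOpen_nset (hP' p.1 p.2) (h p.1 p.2).2.1).preimage
      Pool.Agent.Y421.RB.Q.continuous).inter (isOpen_Ioo.preimage hc3)
  have hQm : ∀ p, MeasurableSet (Q p) := by
    intro p
    exact (hPo p).measurableSet.inter ((continuous_zc.measurable (hAm p)).inter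
      (measurable_coord 2 measurableSet_Ico))
  have hdet : ∀ p, ∀ x ∈ P p, (fderiv ℝ (nmap (N₁ p.1 p.2) (N₂ p.1 p.2)) x).det ≠ 0 := by
    intro p x hx h0
    have h1 := (ndet (hP' p.1 p.2) (h p.1 p.2).2.1 hx.1).2
    rw [h0, abs_zero] at h1
    have h3 : 0 < x 3 := hx.2.2.1
    have h4 := hx.2.1.2
    have h5 : 0 < √(fffDet (φ p.1) (zc x)) :=
      Real.sqrt_pos.mpr (Pool.Agent.Y421.RB.fffDet_pos ((hP' p.1 p.2).imm _ hx.1))
    have h6 : 0 < |sffDet (φ p.1) (nor (N₁ p.1 p.2) (N₂ p.1 p.2) (x 2) (zc x)) (zc x)| :=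
      abs_pos.mpr h4.ne'
    have h7 : 0 < |x 3| ^ 3 * (|sffDet (φ p.1) (nor (N₁ p.1 p.2) (N₂ p.1 p.2) (x 2) (zc x))
        (zc x)| / √(fffDet (φ p.1) (zc x))) := by positivity
    linarith
  have hsum : ∑' p : ι × ℕ, ∫⁻ x in Q p,
      ENNReal.ofReal |(fderiv ℝ (nmap (N₁ p.1 p.2) (N₂ p.1 p.2)) x).det| <
      ((m + 1 : ℕ) : ℝ≥0∞) * ENNReal.ofReal (Real.pi ^ 2 / 2) := by
    calc ∑' p : ι × ℕ, ∫⁻ x in Q p,
          ENNReal.ofReal |(fderiv ℝ (nmap (N₁ p.1 p.2) (N₂ p.1 p.2)) x).det|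
        ≤ ∑' p : ι × ℕ, ENNReal.ofReal (1 / 4) * ∫⁻ z in A' p, ncurvAt (φ p.1) z :=
          ENNReal.tsum_le_tsum fun p =>
            int_jac (hP' p.1 p.2) (h p.1 p.2).2.1 (hAm p) (hsub p)
      _ = ENNReal.ofReal (1 / 4) * ∑' i, ∑' j, ∫⁻ z in A' (i, j), ncurvAt (φ i) z := by
          rw [ENNReal.tsum_mul_left]
          congr 1
          exact ENNReal.tsum_prod (f := fun i j => ∫⁻ z in A' (i, j), ncurvAt (φ i) z)
      _ ≤ ENNReal.ofReal (1 / 4) * ∑' i, ∫⁻ z in A i, ncurvAt (φ i) z := by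
          refine mul_le_mul_right (ENNReal.tsum_le_tsum fun i => ?_) _
          rw [← lintegral_iUnion (fun j => hAm (i, j))]
          · exact lintegral_mono_set (iUnion_subset fun j => inter_subset_right)
          · intro j k hjk
            exact (disjoint_disjointed (U' i) hjk).mono inter_subset_left inter_subset_left
      _ < ENNReal.ofReal (1 / 4) * ENNReal.ofReal (2 * Real.pi ^ 2 * (m + 1)) := by
          refine ENNReal.mul_lt_mul_right ?_ ?_ hT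
          · simp
          · exact ENNReal.ofReal_ne_top
      _ = ((m + 1 : ℕ) : ℝ≥0∞) * ENNReal.ofReal (Real.pi ^ 2 / 2) := by
          rw [← ENNReal.ofReal_mul (by norm_num), ← ENNReal.ofReal_natCast,
            ← ENNReal.ofReal_mul (by positivity)]
          congr 1
          push_cast
          ring
  obtain ⟨y, hy0, hy1, hyZ, hreg, hcnt⟩ := core_abs (ι := ι × ℕ)
    (fun p => nmap (N₁ p.1 p.2) (N₂ p.1 p.2))
    (fun p => {x | zc x ∈ U' p.1 p.2}) P Q hPo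
    (fun p x hx => (ndet (hP' p.1 p.2) (h p.1 p.2).2.1 hx.1).1.contDiffWithinAt) hdet hQm
    (fun p x hx => hx.1)
    (fun p x hx => (ndet (hP' p.1 p.2) (h p.1 p.2).2.1 hx).1.differentiableAt (by simp))
    Z hZ m hsum
  set r := ‖y‖ with hr
  set v : E4 := r⁻¹ • y with hvd
  have hv : ‖v‖ = 1 := by
    rw [hvd, norm_smul, Real.norm_eq_abs, abs_of_pos (inv_pos.mpr hy0), ← hr,
      inv_mul_cancel₀ hy0.ne']
  have hyr : r • v = y := by
    rw [hvd, smul_smul, mul_inv_cancel₀ hy0.ne', one_smul]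
  have hsm : ∀ i, ∀ z ∈ U i, ContDiffAt ℝ ∞ (φ i) z := fun i z hz =>
    (hP i).smooth.contDiffAt ((hP i).isOpen.mem_nhds hz)
  -- critical points
  have hcrit : ∀ i, ∀ z ∈ U i, fderiv ℝ (fun w => (⟪v, φ i w⟫ : ℝ)) z = 0 →
      ∀ j, z ∈ U' i j → ∃ θ ∈ Ico 0 (2 * Real.pi), nor (N₁ i j) (N₂ i j) θ z = v ∧
        nmap (N₁ i j) (N₂ i j) (mk4 z θ r) = y ∧ sffDet (φ i) v z ≠ 0 := by
    intro i z hz hc j hj
    have hperp : ∀ u : ℂ, (⟪v, d1 (φ i) u z⟫ : ℝ) = 0 := by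
      intro u
      have h1 := inner_fderiv ((hsm i z hz).differentiableAt (by simp)) v u
      rw [hc] at h1
      exact h1.symm
    obtain ⟨θ, hθ, hn⟩ := Pool.Agent.Y977.RB.frame (φ i) (N₁ i j) (N₂ i j) (U' i j) (hP' i j)
      (h i j).2.1 z hj v hv hperp
    have hmap : nmap (N₁ i j) (N₂ i j) (mk4 z θ r) = y := by
      unfold nmap
      rw [mk4_zc, mk4_two, mk4_three, ← hn, hyr]
    refine ⟨θ, hθ, hn.symm, hmap, ?_⟩
    intro h0
    have h1 := hreg (i, j) (mk4 z θ r) (by simpa using hj) hmap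
    have h2 := (ndet (hP' i j) (h i j).2.1 (x := mk4 z θ r) (by simpa using hj)).2
    rw [mk4_zc, mk4_two, mk4_three, ← hn, h0] at h2
    simp at h2
    exact h1 h2
  refine ⟨v, r, hv, hy0, by rwa [hyr], ?_, ?_⟩
  · intro i z hz hc u hu
    obtain ⟨j, hj⟩ := mem_iUnion.mp (hU i hz)
    obtain ⟨θ, -, -, -, hd⟩ := hcrit i z hz hc j hj
    refine sff_nondeg (hsm i z hz) hd fun w => ?_
    have h1 := hu w
    rw [inner_fderiv2 (hsm i z hz)] at h1
    exact h1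
  · intro s hs'
    have hpt : ∀ p : ι × ℂ, ∃ (j : ℕ) (θ : ℝ), (p ∈ s → mk4 p.2 θ r ∈ Q (p.1, j) ∧
        nmap (N₁ p.1 j) (N₂ p.1 j) (mk4 p.2 θ r) = y) := by
      intro p
      by_cases hp : p ∈ s
      · obtain ⟨hz1, hz2⟩ := hs' p hp
        obtain ⟨j, hj⟩ := hcov p.1 p.2 hz1
        have hzU := hAU p.1 hz1
        have hc : fderiv ℝ (fun w => (⟪v, φ p.1 w⟫ : ℝ)) p.2 = 0 := hz2.fderiv_eq_zero
        obtain ⟨θ, hθ, hn, hmap, hd⟩ := hcrit p.1 p.2 hzU hc j (hsub (p.1, j) hj)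
        refine ⟨j, θ, fun _ => ⟨⟨⟨?_, ?_, ?_⟩, ?_, ?_⟩, hmap⟩⟩
        · simpa using hsub (p.1, j) hj
        · rw [mk4_zc, mk4_two, hn]
          exact negDef_of_max (hsm p.1 p.2 hzU) hd hz2
        · rw [mk4_three]
          exact ⟨hy0, hy1⟩
        · simpa using hj
        · simpa using hθ
      · exact ⟨0, 0, fun h => absurd h hp⟩
    choose j θ hθ using hpt
    have hinj : Function.Injective (fun p : ι × ℂ => ((p.1, j p), mk4 p.2 (θ p) r)) := by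
      intro a b hab
      have h1 := congrArg (fun q : (ι × ℕ) × E4 => q.1.1) hab
      have h2 := congrArg (fun q : (ι × ℕ) × E4 => zc q.2) hab
      simp only [mk4_zc] at h1 h2
      exact Prod.ext h1 h2
    have := hcnt (s.map ⟨_, hinj⟩) ?_
    · simpa using this
    · intro p hp
      obtain ⟨q, hq, rfl⟩ := Finset.mem_map.mp hp
      exact hθ q hq

end Pool.Agent.Q196.RG
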