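import Pool.Agent.Q196.SR.MainB
import Pool.Agent.Q196.RG.DirS

/-!
Total curvature and Willmore energy of compact surfaces in the ball.
-/

set_option autoImplicit false

namespace Pool.Agent.Q196.RG

open scoped ContDiff RealInnerProductSpace ENNReal Topology
open MeasureTheory Set Metric Filter Pool.Agent.Y503.RB Pool.Agent.Q196.SR

/-- Total curvature of `F` in the normal directions in which it is negative definite: infimum over
all countable families of parametrised pieces of `F` which cover the part of `F` in the open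
ball. -/
noncomputable def surfCurv (F : Set E4) : ℝ≥0∞ :=
  ⨅ (φ : ℕ → ℂ → E4) (U : ℕ → Set ℂ) (A : ℕ → Set ℂ)
    (_ : (∀ i, Patch (φ i) (U i) ∧ φ i '' U i ⊆ F ∧ MeasurableSet (A i) ∧ A i ⊆ U i) ∧
      F ∩ ball 0 1 ⊆ ⋃ i, φ i '' A i),
    ∑' i, ∫⁻ z in A i, ncurvAt (φ i) z

/-- Willmore energy of `F`: the integral of `|H|²` over the part of `F` in the open ball, computed
in the best possible countable family of parametrised pieces which cover it. -/
noncomputable def surfWillmore (F : Set E4) : ℝ≥0∞ :=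
  ⨅ (φ : ℕ → ℂ → E4) (U : ℕ → Set ℂ) (A : ℕ → Set ℂ)
    (_ : (∀ i, Patch (φ i) (U i) ∧ φ i '' U i ⊆ F ∧ MeasurableSet (A i) ∧ A i ⊆ U i) ∧
      F ∩ ball 0 1 ⊆ ⋃ i, φ i '' A i),
    ∑' i, ∫⁻ z in A i, ENNReal.ofReal (‖meanCurv (φ i) z‖ ^ 2 * √(fffDet (φ i) z))

theorem surfCurv_le (F : Set E4) :
    surfCurv F ≤ ENNReal.ofReal (Real.pi / 2) * surfWillmore F := by
  have hpi : ENNReal.ofReal (Real.pi / 2) ≠ 0 := by simp [Real.pi_pos]
  unfold surfWillmore
  rw [ENNReal.mul_iInf_of_ne hpi ENNReal.ofReal_ne_top]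
  refine le_iInf fun φ => ?_
  rw [ENNReal.mul_iInf_of_ne hpi ENNReal.ofReal_ne_top]
  refine le_iInf fun U => ?_
  rw [ENNReal.mul_iInf_of_ne hpi ENNReal.ofReal_ne_top]
  refine le_iInf fun A => ?_
  rw [ENNReal.mul_iInf_of_ne hpi ENNReal.ofReal_ne_top]
  refine le_iInf fun h => ?_
  have h0 : surfCurv F ≤ ∑' i, ∫⁻ z in A i, ncurvAt (φ i) z := by
    unfold surfCurv
    exact iInf_le_of_le φ (iInf_le_of_le U (iInf_le_of_le A (iInf_le_of_le h le_rfl)))
  refine h0.trans ?_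
  rw [← ENNReal.tsum_mul_left]
  refine ENNReal.tsum_le_tsum fun i => ?_
  rw [← lintegral_const_mul' _ _ ENNReal.ofReal_ne_top]
  refine setLIntegral_mono' (h.1 i).2.2.1 fun z hz => ?_
  exact ncurvAt_le ((h.1 i).1.imm z ((h.1 i).2.2.2 hz))

/-- Surfaces of small total curvature. -/
theorem curvature_surf {F : Set E4} (hF : PSurf F) (m : ℕ)
    (hT : surfCurv F < ENNReal.ofReal (2 * Real.pi ^ 2 * (m + 1))) :
    ∃ (q : E4) (G : E4 → E4), BallDiffeo q G ∧ q ∉ F ∧ PSurf (G '' F) ∧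
      G '' F ∩ sphere 0 1 = F ∩ sphere 0 1 ∧ MorseSurf (G '' F) m := by
  classical
  simp only [surfCurv, iInf_lt_iff] at hT
  obtain ⟨φ, U, A, ⟨hall, hcov⟩, hT⟩ := hT
  obtain ⟨ψ, U₂, V₂, hall₂, hcov₂⟩ := Pool.Agent.Y487.RB.lp F hF
  -- boundary charts
  choose! χ Uχ Vχ hχB hχV hχp hχF using hF.loc
  obtain ⟨T, hTcov⟩ := hF.compact.elim_nhds_subcover' (fun p _ => Vχ p)
    (fun p hp => (hχV p hp).mem_nhds (hχp p hp))
  set Z : Set E4 := ⋃ p ∈ T, {y : E4 | ∃ z ∈ Uχ p, ‖χ p z‖ = 1 ∧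
    ∀ u : ℂ, (⟪y, fderiv ℝ (χ p) z u⟫ : ℝ) = 0} with hZd
  have hZ : volume Z = 0 := by
    refine (measure_biUnion_null_iff T.countable_toSet).mpr fun p hp => ?_
    exact bdS (hχB p p.2)
  obtain ⟨v, r, hv, hr, hrZ, hmorse, hmax⟩ := good_dirs
    (ι := ℕ ⊕ ℕ) (φ := Sum.elim φ ψ) (U := Sum.elim U U₂) (A := Sum.elim A (fun _ => ∅))
    (by
      rintro (i | i)
      · exact (hall i).1
      · exact (hall₂ i).2.1)
    (by
      rintro (i | i)
      · exact (hall i).2.2.1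
      · exact MeasurableSet.empty)
    (by
      rintro (i | i)
      · exact (hall i).2.2.2
      · exact empty_subset _)
    m Z hZ (by
      rw [Summable.tsum_sum ENNReal.summable ENNReal.summable]
      simpa using hT)
  have hMo : MorseOn (fun x => (⟪v, x⟫ : ℝ)) F := by
    intro p hp
    rcases (by simpa using hF.sub hp : ‖p‖ ≤ 1).lt_or_eq with hlt | heq
    · obtain ⟨k, hk⟩ := mem_iUnion.mp (hcov₂ ⟨hp, by simpa using hlt⟩)
      obtain ⟨z, hz, rfl⟩ := hk
      have hV : ψ k z ∈ V₂ k := by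
        have : ψ k z ∈ ψ k '' U₂ k := ⟨z, hz, rfl⟩
        rw [← (hall₂ k).2.2.2] at this
        exact this.2
      refine ⟨ψ k, U₂ k, V₂ k, z, (hall₂ k).1, (hall₂ k).2.2.1, hV, ?_, hz, rfl,
        fun h1 => absurd h1 hlt.ne, fun _ => hmorse (Sum.inr k) z hz⟩
      rw [(hall₂ k).2.2.2]
      refine (inter_eq_left.mpr ?_).symm
      rintro _ ⟨w, hw, rfl⟩
      simpa using ((hall₂ k).2.1.inside w hw).le
    · obtain ⟨q, hq, hpq⟩ := mem_iUnion₂.mp (hTcov hp)
      have h1 : p ∈ χ q '' Uχ q ∩ closedBall 0 1 := by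
        rw [← hχF q q.2]
        exact ⟨hp, hpq⟩
      obtain ⟨⟨z, hz, hzp⟩, -⟩ := h1
      refine ⟨χ q, Uχ q, Vχ q, z, hχB q q.2, hχV q q.2, hpq, hχF q q.2, hz, hzp,
        fun _ h0 => hrZ ?_, fun h2 => absurd heq h2.ne⟩
      refine mem_iUnion₂.mpr ⟨q, hq, z, hz, by rw [hzp, heq], fun u => ?_⟩
      have h2 := inner_fderiv ((((hχB q q.2).smooth.contDiffAt
        ((hχB q q.2).isOpen.mem_nhds hz))).differentiableAt (by simp)) v u
      rw [h0] at h2
      rw [inner_smul_left, ← h2]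
      simp
  refine convex_surf (h := fun x => (⟪v, x⟫ : ℝ)) (W := univ) hF isOpen_univ (subset_univ _)
    (contDiff_const.inner ℝ contDiff_id).contDiffOn ?_ hMo ?_
  · refine ⟨convex_closedBall _ _, fun x _ y _ α β _ _ _ => ?_⟩
    simp only [inner_add_right, inner_smul_right, smul_eq_mul]
    exact le_rfl
  · refine encard_le_of_finset fun s hs' => ?_
    have hpt : ∀ q : E4, ∃ (i : ℕ) (z : ℂ), q ∈ s → z ∈ A i ∧ φ i z = q ∧
        IsLocalMax (fun w => (⟪v, φ i w⟫ : ℝ)) z := by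
      intro q
      by_cases hq : q ∈ s
      · obtain ⟨hqF, hq1, hq2⟩ := hs' q hq
        obtain ⟨i, hi⟩ := mem_iUnion.mp (hcov ⟨hqF, by simpa using hq1⟩)
        obtain ⟨z, hz, hzq⟩ := hi
        refine ⟨i, z, fun _ => ⟨hz, hzq, ?_⟩⟩
        exact max_comp (f := fun x : E4 => (⟪v, x⟫ : ℝ)) (hall i).1.isOpen
          (hall i).1.smooth.continuousOn (hall i).2.1 ((hall i).2.2.2 hz) (by rwa [hzq])
      · exact ⟨0, 0, fun h => absurd h hq⟩
    choose i z hiz using hpt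
    have hcard : (s.image fun q => ((Sum.inl (i q) : ℕ ⊕ ℕ), z q)).card = s.card := by
      refine Finset.card_image_of_injOn ?_
      intro a ha b hb hab
      have h1 := (hiz a ha).2.1
      have h2 := (hiz b hb).2.1
      simp only [Prod.mk.injEq, Sum.inl.injEq] at hab
      rw [← h1, ← h2, hab.1, hab.2]
    rw [← hcard]
    refine hmax _ fun p hp => ?_
    obtain ⟨q, hq, rfl⟩ := Finset.mem_image.mp hp
    obtain ⟨h1, h2, h3⟩ := hiz q hq
    exact ⟨h1, h3⟩

/-- Surfaces of small Willmore energy. -/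
theorem willmore_surf {F : Set E4} (m : ℕ)
    (hW : surfWillmore F < ENNReal.ofReal (4 * Real.pi * (m + 1))) :
    surfCurv F < ENNReal.ofReal (2 * Real.pi ^ 2 * (m + 1)) := by
  refine lt_of_le_of_lt (surfCurv_le F) ?_
  have h1 : ENNReal.ofReal (Real.pi / 2) * surfWillmore F <
      ENNReal.ofReal (Real.pi / 2) * ENNReal.ofReal (4 * Real.pi * (m + 1)) := by
    refine ENNReal.mul_lt_mul_right ?_ ENNReal.ofReal_ne_top hW
    simp [Real.pi_pos]
  refine lt_of_lt_of_eq h1 ?_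
  rw [← ENNReal.ofReal_mul (by positivity)]
  congr 1
  ring

end Pool.Agent.Q196.RG
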